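import Pool.Agent.N126.IS.Stm2

/-!
# Project IS2 (helper126), part STEP: the induction step of the structure theorem (helper717)
-/

set_option autoImplicit false

open Pool.Agent.W602.GT MvPolynomial Pool.Agent.N126.IS

namespace Pool.Agent.N717.IS

section hom

variable {n : ℕ} {K : Type} [Field K]

theorem val_hom {G : MvPolynomial (Fin (n + 1)) K} {d : ℕ} (h : G.IsHomogeneous d) (lam : K)
    (z : Fin (n + 1) → K) : val (fun j => lam * z j) G = lam ^ d * val z G := by
  have h0 : ∀ w : Fin (n + 1) → K, val w G = eval w G := fun w =>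
    congrArg (fun φ : MvPolynomial (Fin (n + 1)) K →+* K => φ G) (coe_aeval_eq_eval w)
  rw [h0, h0, eval_eq', eval_eq', Finset.mul_sum]
  refine Finset.sum_congr rfl fun e he => ?_
  have h1 : ∑ i, e i = d := by
    have h2 : Finsupp.weight (fun _ => (1 : ℕ)) e = d := h (mem_support_iff.1 he)
    rw [← Finsupp.degree_eq_weight_one, Finsupp.degree_eq_sum] at h2
    exact h2
  have h2 : ∏ i, (lam * z i) ^ e i = lam ^ d * ∏ i, z i ^ e i := by
    rw [← h1, ← Finset.prod_pow_eq_pow_sum, ← Finset.prod_mul_distrib]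
    refine Finset.prod_congr rfl fun i _ => ?_
    rw [mul_pow]
  rw [h2]
  ring

theorem wc_hom {G : MvPolynomial (Fin (n + 1)) K} {d : ℕ} (h : G.IsHomogeneous d)
    (b : Fin (n + 1) → ℤ) (v : ℤ) : (wc b v G).IsHomogeneous d := by
  unfold wc
  refine IsHomogeneous.sum _ _ _ fun α hα => ?_
  apply isHomogeneous_monomial
  have h2 : Finsupp.weight (fun _ => (1 : ℕ)) α = d :=
    h (mem_support_iff.1 (Finset.mem_filter.1 hα).1)
  rw [← Finsupp.degree_eq_weight_one] at h2
  exact h2

theorem expand_hom (m : ℕ) {p : MvPolynomial (Fin (n + 1)) K} {D : ℕ}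
    (hp : p.IsHomogeneous D) : (expand m p).IsHomogeneous (m * D) := by
  classical
  rw [p.as_sum, map_sum]
  refine IsHomogeneous.sum _ _ _ fun α hα => ?_
  rw [expand_monomial]
  apply isHomogeneous_monomial
  have h1 : α.degree = D := by
    have h2 := hp (mem_support_iff.1 hα)
    rw [← h2, Finsupp.degree_eq_sum]
    simp [Finsupp.weight_apply, Finsupp.sum_fintype]
  rw [← h1, Finsupp.degree_eq_sum, Finsupp.degree_eq_sum, Finset.mul_sum]
  exact Finset.sum_congr rfl fun j _ => by rw [Finsupp.smul_apply, smul_eq_mul]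

end hom

/-- the part of the field which comes from the intermediate field is finitely generated -/
theorem exists_T1 (hFG : S_FG) {k k1 K : Type} [Field k] [CharZero k] [Field k1] [Field K]
    [Algebra k k1] [Algebra k1 K] [Algebra k K] [IsScalarTower k k1 K] (T0 : Finset K) :
    ∃ T1 : Finset k1, ∀ e : k1, algebraMap k1 K e ∈ IntermediateField.adjoin k (T0 : Set K) →
      e ∈ IntermediateField.adjoin k (T1 : Set k1) := by
  classical
  set f : k1 →ₐ[k] K := IsScalarTower.toAlgHom k k1 K with hf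
  obtain ⟨S2, hS2⟩ := hFG k K T0 (IntermediateField.adjoin k (T0 : Set K) ⊓ f.fieldRange)
    inf_le_left
  have hfi : Function.Injective f := f.toRingHom.injective
  refine ⟨S2.preimage f hfi.injOn, fun e he => ?_⟩
  have h1 : f e ∈ IntermediateField.adjoin k (S2 : Set K) := by
    rw [← hS2]
    exact IntermediateField.mem_inf.2 ⟨he, ⟨e, rfl⟩⟩
  have h2 : (f '' ((S2.preimage f hfi.injOn : Finset k1) : Set k1)) = (S2 : Set K) := by
    rw [Finset.coe_preimage, Set.image_preimage_eq_iff]
    intro s hs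
    have h3 : s ∈ IntermediateField.adjoin k (S2 : Set K) :=
      IntermediateField.subset_adjoin _ _ hs
    rw [← hS2] at h3
    exact (IntermediateField.mem_inf.1 h3).2
  rw [← h2, ← IntermediateField.adjoin_map] at h1
  obtain ⟨e', he', hee⟩ := h1
  have h3 : e' = e := hfi hee
  rw [← h3]
  exact he'

theorem main_STEP : S_FG → S_TRL → S_STEP := by
  classical
  intro hFG hTRL k k1 K _ _ _ _ _ _ _ _ n m D T hm hk ι F hF hT hS T0
  obtain ⟨S1, hS1⟩ := hS T0
  obtain ⟨T1, hT1⟩ := exists_T1 hFG (k := k) (k1 := k1) T0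
  have hPh : ∀ i, (expand m (F i)).IsHomogeneous (m * D) := fun i => expand_hom m (hF i)
  -- one of the vectors
  have hy : ∀ y : Fin (n + 1) → K, ∃ Sy : Finset (Fin (n + 1) → K), ∀ x : Fin (n + 1) → K,
      x ≠ 0 → (∀ i, x i ∈ IntermediateField.adjoin k (T0 : Set K)) →
      (∀ e, val x (expand m (F e)) = 0) →
      (∃ (a : K) (c : Fin (n + 1) → k1), (∀ i, c i ≠ 0) ∧
        ∀ i, x i = a * y i * algebraMap k1 K (c i)) →
      Orb (fun i => expand m (F i)) x ∨ ∃ y' ∈ Sy, ∃ (a : K) (c : Fin (n + 1) → k),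
        (∀ i, c i ≠ 0) ∧ ∀ i, x i = a * y' i * algebraMap k K (c i) := by
    intro y
    by_cases hex : ∃ x : Fin (n + 1) → K, x ≠ 0 ∧
        (∀ i, x i ∈ IntermediateField.adjoin k (T0 : Set K)) ∧
        (∀ e, val x (expand m (F e)) = 0) ∧
        (∃ (a : K) (c : Fin (n + 1) → k1), (∀ i, c i ≠ 0) ∧
          ∀ i, x i = a * y i * algebraMap k1 K (c i))
    swap
    · refine ⟨∅, fun x h1 h2 h3 h4 => ?_⟩
      exact absurd ⟨x, h1, h2, h3, h4⟩ hex
    obtain ⟨x0, hx0, hx0L, -, a0, c0, hc0, hx0c⟩ := hex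
    obtain ⟨j0, hj0⟩ := Function.ne_iff.1 hx0
    have hj0' : x0 j0 ≠ 0 := hj0
    have ha0 : a0 ≠ 0 := by
      intro h
      apply hj0'
      rw [hx0c, h, zero_mul, zero_mul]
    have hyj0 : y j0 ≠ 0 := by
      intro h
      apply hj0'
      rw [hx0c, h, mul_zero, zero_mul]
    -- the system over `k1`
    set F' : ι × (K →ₗ[k1] k1) → MvPolynomial (Fin (n + 1)) k1 :=
      Tr k1 (fun j => x0 j ^ m) F with hF'
    obtain ⟨-, -, t3, t4, -⟩ := hTRL k1 K n m D ι F (fun j => x0 j ^ m)
    obtain ⟨-, -, -, -, t5⟩ := hTRL k1 K n m D ι F x0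
    obtain ⟨t1, t2, -, -, -⟩ := hTRL k1 K n m D ι (fun i => expand m (F i)) x0
    have hTr : ∀ p, Tr k1 x0 (fun i => expand m (F i)) p = expand m (F' p) :=
      fun p => t5 hm p.1 p.2
    obtain ⟨S', hS'⟩ := hk _ F' (t3 hF) (fun p => (t4 p).trans (hT p.1)) T1
    refine ⟨S'.image fun y' j => x0 j * algebraMap k1 K (y' j), ?_⟩
    intro x hx hxL hxP ⟨a, c, hc, hxc⟩
    have ha : a ≠ 0 := by
      intro h
      apply hx
      funext j
      rw [hxc, h, zero_mul, zero_mul]
      rfl
    have hcK : ∀ j, algebraMap k1 K (c j) ≠ 0 := fun j =>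
      (map_ne_zero_iff _ (algebraMap k1 K).injective).2 (hc j)
    have hc0K : ∀ j, algebraMap k1 K (c0 j) ≠ 0 := fun j =>
      (map_ne_zero_iff _ (algebraMap k1 K).injective).2 (hc0 j)
    have hxj0 : x j0 ≠ 0 := by
      rw [hxc]
      exact mul_ne_zero (mul_ne_zero ha hyj0) (hcK j0)
    -- the vector `e`
    set e : Fin (n + 1) → k1 := fun j =>
      if x0 j = 0 then 0 else (c j / c j0) / (c0 j / c0 j0) with he
    have hy0 : ∀ j, x0 j ≠ 0 → y j ≠ 0 := by
      intro j hj h
      apply hj
      rw [hx0c, h, mul_zero, zero_mul]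
    have heK : ∀ j, x0 j ≠ 0 → algebraMap k1 K (e j) = (x j / x j0) / (x0 j / x0 j0) := by
      intro j hj
      have h1 := hy0 j hj
      have h2 := hcK j
      have h3 := hcK j0
      have h4 := hc0K j
      have h5 := hc0K j0
      rw [he]
      simp only [hj, if_false, map_div₀]
      rw [hxc j, hxc j0, hx0c j, hx0c j0]
      field_simp
    have hxe : ∀ j, x j = (x j0 / x0 j0) * (x0 j * algebraMap k1 K (e j)) := by
      intro j
      by_cases hj : x0 j = 0
      · have hyj : y j = 0 := by
          have h1 := hx0c j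
          rw [hj] at h1
          rcases mul_eq_zero.1 h1.symm with h2 | h2
          · exact (mul_eq_zero.1 h2).resolve_left ha0
          · exact absurd h2 (hc0K j)
        rw [hxc j, hyj, hj]
        ring
      · rw [heK j hj]
        field_simp
    have heL : ∀ j, e j ∈ IntermediateField.adjoin k (T1 : Set k1) := by
      intro j
      apply hT1
      by_cases hj : x0 j = 0
      · have h1 : e j = 0 := by rw [he]; simp [hj]
        rw [h1, map_zero]
        exact zero_mem _
      · rw [heK j hj]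
        exact div_mem (div_mem (hxL _) (hxL _)) (div_mem (hx0L _) (hx0L _))
    have he0 : e ≠ 0 := by
      intro h
      have h1 := hxe j0
      rw [h] at h1
      apply hxj0
      rw [h1]
      simp
    set lam : K := x j0 / x0 j0 with hlam
    have hlam0 : lam ≠ 0 := div_ne_zero hxj0 hj0'
    have hxe' : x = fun j => lam * (x0 j * algebraMap k1 K (e j)) := funext hxe
    have hPe : ∀ i, val (fun j => x0 j * algebraMap k1 K (e j)) (expand m (F i)) = 0 := by
      intro i
      have h1 := hxP i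
      rw [hxe', val_hom (hPh i)] at h1
      exact (mul_eq_zero.1 h1).resolve_left (pow_ne_zero _ hlam0)
    have hval : ∀ p, val e (expand m (F' p)) = 0 := by
      intro p
      rw [← hTr]
      exact (t1 e).2 hPe p
    rcases hS' e he0 heL hval with ⟨b, i, i', hi, hi', hb, hwc⟩ | ⟨y', hy', a', c', hc', hec⟩
    · left
      have hne : ∀ i, e i ≠ 0 → x i ≠ 0 := by
        intro i hi
        have h1 : x0 i ≠ 0 := by
          intro h
          apply hi
          rw [he]
          simp [h]
        rw [hxe i]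
        exact mul_ne_zero hlam0 (mul_ne_zero h1
          ((map_ne_zero_iff _ (algebraMap k1 K).injective).2 hi))
      refine ⟨b, i, i', hne i hi, hne i' hi', hb, fun q v => ?_⟩
      have h1 : ∀ p, val e (wc b v (Tr k1 x0 (fun i => expand m (F i)) p)) = 0 := by
        intro p
        rw [hTr]
        exact hwc p v
      have h2 := (t2 b v e).1 h1 q
      rw [hxe', val_hom (wc_hom (hPh q) b v), h2, mul_zero]
    · right
      refine ⟨_, Finset.mem_image_of_mem _ hy', lam * algebraMap k1 K a', c', hc', fun j => ?_⟩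
      rw [hxe j, hec j, map_mul, map_mul, ← IsScalarTower.algebraMap_apply]
      ring
  choose Sy hSy using hy
  refine ⟨S1.biUnion Sy, fun x hx hxL hxP => ?_⟩
  have hxL1 : ∀ i, x i ∈ IntermediateField.adjoin k1 (T0 : Set K) := by
    intro i
    have h1 : IntermediateField.adjoin k (T0 : Set K) ≤
        (IntermediateField.adjoin k1 (T0 : Set K)).restrictScalars k := by
      rw [IntermediateField.adjoin_le_iff]
      exact IntermediateField.subset_adjoin k1 (T0 : Set K)
    exact h1 (hxL i)
  rcases hS1 x hx hxL1 hxP with h1 | ⟨y, hyS, a, c, hc, hxc⟩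
  · exact Or.inl h1
  · rcases hSy y x hx hxL hxP ⟨a, c, hc, hxc⟩ with h2 | ⟨y', hy', h3⟩
    · exact Or.inl h2
    · exact Or.inr ⟨y', Finset.mem_biUnion.2 ⟨y, hyS, hy'⟩, h3⟩

end Pool.Agent.N717.IS
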